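import Pool.Agent.X180.TW.Defs
import Pool.Agent.X180.Tow.Chain

/-!
Forms for towers of fibrations whose steps have fibres of log general type.
-/

set_option autoImplicit false

open FF Pool.Agent.W602.GT Pool.Agent.Y172 Pool.Agent.Y191

namespace Pool.Agent.X180.TW

/-- the sum of the dimensions `r j` for which the sum of the weights is greater than `r j + 1` -/
def big {c : ℕ} (r s : Fin c → ℕ) (w : ∀ j, Fin (s j) → ℚ) : ℕ :=
  ∑ j, if (r j + 1 : ℚ) < ∑ i, w j i then r j else 0

theorem exists_idx {c : ℕ} (r q : Fin c → ℕ) (w : ∀ j, Fin (q j) → ℚ) :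
    ∃ κ : Fin (big r q w) → Σ j, Fin (r j), Function.Injective κ ∧
      ∀ i, (r (κ i).1 + 1 : ℚ) < ∑ i', w (κ i).1 i' := by
  classical
  have h1 : Fintype.card {x : Σ j, Fin (r j) // (r x.1 + 1 : ℚ) < ∑ i, w x.1 i} = big r q w := by
    rw [Fintype.card_subtype, Finset.card_filter, Fintype.sum_sigma]
    refine Finset.sum_congr rfl fun j _ => ?_
    change ∑ _k : Fin (r j), (if (r j + 1 : ℚ) < ∑ i, w j i then 1 else 0) = _
    rw [Finset.sum_const, Finset.card_univ, Fintype.card_fin, smul_eq_mul, mul_ite, mul_one,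
      mul_zero]
  let φ := Fintype.equivFinOfCardEq h1
  exact ⟨fun i => (φ.symm i : Σ j, Fin (r j)), fun a b hab => φ.symm.injective (Subtype.ext hab),
    fun i => (φ.symm i).2⟩

/-- the forms along the fibres of log general type -/
theorem forms_of {F : Type} [Field F] [Algebra ℂ F] {d e : ℕ} {L : IntermediateField ℂ F}
    (hL : Algebra.trdeg ℂ L = d) (hE : Algebra.trdeg ℂ F = (d + e : ℕ))
    (h : GeneralTypeFibres F L (d + e) e) : Pool.Agent.X180.Tow.HasForms (d + e)
      {p : Place ℂ F | Divisorial (d + e) p} (fun _ => 0) L e e := by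
  obtain ⟨c, r, s, w, rfl, hw, K', _, _, _, _, _, A, u, hA, hu, hH⟩ := h
  have hb : big r s w = ∑ j, r j := Finset.sum_congr rfl fun j _ => if_pos (hw j).2.2
  obtain ⟨κ, hκ, hκs⟩ := exists_idx r s w
  have h1 := lc_low (N := d + ∑ j, r j) (X := {p : Place ℂ F | Divisorial (d + ∑ j, r j) p})
    (δ := fun _ => 0)
    (Pool.Agent.X180.Iso.trdeg_rel' hE hL) hA finSigmaFinEquiv hu
    (fun j => (hw j).2.1) (fun j => (hw j).2.2.le) hκ hκs (fun _ _ => le_rfl) hH
  rw [hb] at h1
  exact h1

/-- the forms along the fibres which dominate a constant variety -/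
theorem forms_of_dominates {F : Type} [Field F] [Algebra ℂ F] {d e : ℕ}
    {L : IntermediateField ℂ F} (hL : Algebra.trdeg ℂ L = d)
    (hE : Algebra.trdeg ℂ F = (d + e : ℕ)) (h : DominatesConstant F L e) :
    Pool.Agent.X180.Tow.HasForms (d + e)
      {p : Place ℂ F | Divisorial (d + e) p} (fun _ => 0) L e e := by
  obtain ⟨K', _, _, _, _, α, M, hα, htop, _, hM, hk, hdom⟩ := h
  have hfin : FiniteDimensional F K' := Pool.Agent.X180.Iso.fin_of_top hα htop
  have h1 : Algebra.trdeg L F = e := Pool.Agent.X180.Iso.trdeg_rel hE hL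
  exact Pool.Agent.X180.Iso.fib_forms hE h1 hα htop M hM
    (fun z => Pool.Agent.X180.Iso.alg_acl M (hdom z)) hk _

theorem dims {l : ℕ} {D : Fin (l + 1) → ℕ} {e : Fin l → ℕ}
    (h : ∀ i : Fin l, D i.succ = D i.castSucc + e i) : D (Fin.last l) = D 0 + ∑ i, e i := by
  induction l with
  | zero => simp
  | succ l ih =>
    rw [Fin.sum_univ_castSucc, ← add_assoc, ← Fin.succ_last, h]
    congr 1
    exact ih (D := fun i => D i.castSucc) (e := fun i => e i.castSucc) fun i => h i.castSucc

/-- the forms along the fibres of the steps of the tower -/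
theorem forms_step {F : Type} [Field F] [Algebra ℂ F] {D d e : ℕ}
    {L : IntermediateField ℂ F} (hL : Algebra.trdeg ℂ L = d) (hE : Algebra.trdeg ℂ F = D)
    (hD : D = d + e) (h : GeneralTypeFibres F L D e ∨ DominatesConstant F L e) :
    Pool.Agent.X180.Tow.HasForms (d + e)
      {p : Place ℂ F | Divisorial (d + e) p} (fun _ => 0) L e e := by
  subst hD
  rcases h with h | h
  · exact forms_of hL hE h
  · exact forms_of_dominates hL hE h

/-- **Towers.** -/
theorem tower_forms {K : Type} [Field K] [Algebra ℂ K] {N e' lam' l : ℕ}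
    {X : Set (Place ℂ K)} {δ : Place ℂ K → ℝ} {E : Fin (l + 1) → IntermediateField ℂ K}
    {D : Fin (l + 1) → ℕ} {e : Fin l → ℕ} (hT : IsTower E D e) (hN : Algebra.trdeg ℂ K = N)
    (hNe : N = D (Fin.last l) + e')
    (h0 : Pool.Agent.X180.Tow.HasForms N X δ (E (Fin.last l)) e' lam') :
    Pool.Agent.X180.Tow.HasForms N X δ (E 0) (∑ i, e i + e') (∑ i, e i + lam') :=
  Pool.Agent.X180.Tow.chain (lam := e) hN l E (fun i => (hT.2 i).1)
    (fun i => (hT.1 i.succ).1) D (fun i => (hT.1 i).2) e (fun i => (hT.2 i).2.1) hNe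
    (fun i => forms_step (Pool.Agent.X180.Tow.trdeg_dn (hT.2 i).1 (hT.1 _).2) (hT.1 _).2
      (hT.2 i).2.1 (hT.2 i).2.2) h0

theorem le_last {K : Type} [Field K] [Algebra ℂ K] {l : ℕ}
    {E : Fin (l + 1) → IntermediateField ℂ K} (h : ∀ i : Fin l, E i.castSucc ≤ E i.succ) :
    E 0 ≤ E (Fin.last l) := by
  induction l with
  | zero => exact le_rfl
  | succ l ih =>
    exact (ih (E := fun i => E i.castSucc) fun i => h i.castSucc).trans (h (Fin.last l))

end Pool.Agent.X180.TW
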