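import Pool.Agent.Y191.LcRam
import Pool.Agent.W602.GT.KDefs

/-!
Definitions: towers of fibrations whose steps have fibres of log general type.
-/

set_option autoImplicit false

open FF Pool.Agent.W602.GT Pool.Agent.Y172 Pool.Agent.Y191

namespace Pool.Agent.X180.TW

variable {K : Type} [Field K] [Algebra ℂ K]

/-- The subfield `L` of `K` as a subfield of `E`, if `L` is contained in `E`. -/
noncomputable def below (E L : IntermediateField ℂ K) : IntermediateField ℂ E := L.comap E.val

/-- Let `F` and `L` be the function fields of varieties `W`, of dimension `D`, and `Z`, with a dominant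
rational map from `W` to `Z`. The fibres, of dimension `e`, correspond to moving log canonical
arrangements of log general type: there is a finite extension `K'` of `F`, and the `u ⟨j, k⟩` are the
affine coordinates of a generically finite map, over `Z`, of a variety with the function field `K'` to a
product of projective spaces of dimensions `r j ≥ 1`; `A j i` are the coefficients of hyperplanes,
algebraic over `L`, with weights `w j i` such that the arrangement is log canonical (`LcArr`), and the
sums of the weights are greater than `r j + 1`. The multiplicities are bounded at the places over the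
prime divisors of the models of `W` which dominate `Z` (`LcHor`). -/
def GeneralTypeFibres (F : Type) [Field F] [Algebra ℂ F] (L : IntermediateField ℂ F)
    (D e : ℕ) : Prop :=
  ∃ (c : ℕ) (r s : Fin c → ℕ) (w : ∀ j, Fin (s j) → ℚ), e = ∑ j, r j ∧
  (∀ j, 1 ≤ r j ∧ (∀ i, 0 ≤ w j i) ∧ (r j + 1 : ℚ) < ∑ i, w j i) ∧
  ∃ (K' : Type) (_ : Field K') (_ : Algebra ℂ K') (_ : Algebra F K') (_ : IsScalarTower ℂ F K')
    (_ : FiniteDimensional F K') (A : ∀ j, Fin (s j) → Fin (r j + 1) → K')
    (u : (Σ j, Fin (r j)) → K'),
    LcArr (upF K' L) A w ∧ IsTranscendenceBasis (upF K' L) u ∧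
    LcHor L A u w {p | Divisorial D p} (fun _ => 0)

/-- Let `F` and `L` be the function fields of varieties `W` and `Z`, with a dominant rational map from
`W` to `Z`. After a generically finite base change `Z' → Z` the variety `W ×_Z Z'` has a generically
finite rational map to `Z' × V`, where `V` is a smooth projective variety of general type of dimension
`e`: there is an extension `K'` of `F`, the function field of `W ×_Z Z'`, generated by an element `α`
which is algebraic over `L`, and a subfield `M` of `K'`, the function field of `V`, such that `K'` is
algebraic over the field generated by `M` and the elements which are algebraic over `L`.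
`KodGe ℂ M e (fun _ => False) e`: the Kodaira dimension of `V` is at least `e`. -/
def DominatesConstant (F : Type) [Field F] [Algebra ℂ F] (L : IntermediateField ℂ F)
    (e : ℕ) : Prop :=
  ∃ (K' : Type) (_ : Field K') (_ : Algebra ℂ K') (_ : Algebra F K') (_ : IsScalarTower ℂ F K')
    (α : K') (M : IntermediateField ℂ K'),
    IsAlgebraic L α ∧ IntermediateField.adjoin F {α} = ⊤ ∧
    Algebra.EssFiniteType ℂ M ∧ Algebra.trdeg ℂ M = e ∧ KodGe ℂ M e (fun _ => False) e ∧
    ∀ z : K', IsAlgebraic (IntermediateField.adjoin ℂ ({a : K' | IsAlgebraic L a} ∪ M)) z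

/-- The tower `W_l ⇢ ... ⇢ W_1 ⇢ W_0`: the `E i` are the function fields of varieties of dimensions
`D i`, each contained in the next one, and the fibres of `W_{i+1}` over `W_i`, of dimension `e i`, are
as in `GeneralTypeFibres` or as in `DominatesConstant`, for each `i < l`. -/
def IsTower {l : ℕ} (E : Fin (l + 1) → IntermediateField ℂ K) (D : Fin (l + 1) → ℕ)
    (e : Fin l → ℕ) : Prop :=
  (∀ i, Algebra.EssFiniteType ℂ (E i) ∧ Algebra.trdeg ℂ (E i) = D i) ∧
  ∀ i : Fin l, E i.castSucc ≤ E i.succ ∧ D i.succ = D i.castSucc + e i ∧
    (GeneralTypeFibres (E i.succ) (below (E i.succ) (E i.castSucc)) (D i.succ) (e i) ∨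
      DominatesConstant (E i.succ) (below (E i.succ) (E i.castSucc)) (e i))

end Pool.Agent.X180.TW
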